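import Pool.Agent.L5helper39.EU.Cmp

/-!
# Strain, vorticity and the Laplacian of the pressure
-/

open MeasureTheory Set
open scoped ENNReal NNReal Topology

namespace Pool.Agent.L5helper39.EU

open Pool.Agent.H708R2.EulerSign Pool.Agent.H708R2.EulerTypeI

variable {T : ℝ} {u : ℝ → V → V} {p : ℝ → V → ℝ}

/-- The direction is a unit vector. -/
theorem dirv_unit {v : V → V} {x : V} (h0 : vort v x ≠ 0) : dirv v x ⬝ᵥ dirv v x = 1 := by
  have hn := nrm_pos h0
  have hsq := nrm_sq (vort v x)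
  unfold dirv
  rw [smul_dotProduct, dotProduct_smul, smul_eq_mul, smul_eq_mul, ← hsq]
  field_simp

/-- The cube of the algebra: for a matrix `A` with trace `0` and a unit vector `e` on which the
antisymmetric part of `A` vanishes, `|S|² ≥ 3/2 (e·Ae)² + 2 |Ae - (e·Ae)e|²`. -/
theorem strain_alg (A : Matrix (Fin 3) (Fin 3) ℝ) (htr : A 0 0 + A 1 1 + A 2 2 = 0) (e : V)
    (he : e 0 ^ 2 + e 1 ^ 2 + e 2 ^ 2 = 1)
    (hA0 : ∑ j, (A 0 j - A j 0) * e j = 0) (hA1 : ∑ j, (A 1 j - A j 1) * e j = 0)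
    (hA2 : ∑ j, (A 2 j - A j 2) * e j = 0) :
    3 / 2 * (e ⬝ᵥ A.mulVec e) ^ 2
      + 2 * ((A.mulVec e - (e ⬝ᵥ A.mulVec e) • e) ⬝ᵥ (A.mulVec e - (e ⬝ᵥ A.mulVec e) • e))
      ≤ ∑ i, ∑ j, ((A i j + A j i) / 2) ^ 2 := by
  -- entries of the symmetric part
  set a := A 0 0 with ha
  set b := A 1 1 with hb
  set c := A 2 2 with hc
  set f := (A 0 1 + A 1 0) / 2 with hf
  set g := (A 0 2 + A 2 0) / 2 with hg
  set k := (A 1 2 + A 2 1) / 2 with hk
  simp only [Fin.sum_univ_three, sub_self, zero_mul, zero_add, add_zero] at hA0 hA1 hA2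
  have m0 : A.mulVec e 0 = a * e 0 + f * e 1 + g * e 2 := by
    simp only [Matrix.mulVec, dotProduct, Fin.sum_univ_three, hf, hg, ha]
    linarith
  have m1 : A.mulVec e 1 = f * e 0 + b * e 1 + k * e 2 := by
    simp only [Matrix.mulVec, dotProduct, Fin.sum_univ_three, hf, hk, hb]
    linarith
  have m2 : A.mulVec e 2 = g * e 0 + k * e 1 + c * e 2 := by
    simp only [Matrix.mulVec, dotProduct, Fin.sum_univ_three, hg, hk, hc]
    linarith
  have hS : ∑ i, ∑ j, ((A i j + A j i) / 2) ^ 2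
      = a ^ 2 + b ^ 2 + c ^ 2 + 2 * (f ^ 2 + g ^ 2 + k ^ 2) := by
    simp only [Fin.sum_univ_three, hf, hg, hk, ha, hb, hc]
    ring
  rw [hS]
  simp only [dotProduct, Fin.sum_univ_three, Pi.sub_apply, Pi.smul_apply, smul_eq_mul, m0, m1, m2]
  set x := e 0 with hx
  set y := e 1 with hy
  set z := e 2 with hz
  clear_value a b c f g k x y z
  -- the stretching rate
  set s := x * (a * x + f * y + g * z) + y * (f * x + b * y + k * z)
    + z * (g * x + k * y + c * z) with hs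
  -- the symmetric matrix `Q = S - e τᵀ - τ eᵀ - s e eᵀ + (s/2) (1 - e eᵀ)` has norm `≥ 0`
  set t0 := a * x + f * y + g * z - s * x with ht0
  set t1 := f * x + b * y + k * z - s * y with ht1
  set t2 := g * x + k * y + c * z - s * z with ht2
  have hort : t0 * x + t1 * y + t2 * z = 0 := by
    rw [ht0, ht1, ht2]
    linear_combination (-s) * he
  have E0 : a * x + f * y + g * z = t0 + s * x := by rw [ht0]; ring
  have E1 : f * x + b * y + k * z = t1 + s * y := by rw [ht1]; ring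
  have E2 : g * x + k * y + c * z = t2 + s * z := by rw [ht2]; ring
  clear_value s t0 t1 t2
  have q : 0 ≤ (a - 2 * t0 * x - s * x ^ 2 + s / 2 * (1 - x ^ 2)) ^ 2
      + (b - 2 * t1 * y - s * y ^ 2 + s / 2 * (1 - y ^ 2)) ^ 2
      + (c - 2 * t2 * z - s * z ^ 2 + s / 2 * (1 - z ^ 2)) ^ 2
      + 2 * ((f - t0 * y - t1 * x - s * x * y - s / 2 * x * y) ^ 2
        + (g - t0 * z - t2 * x - s * x * z - s / 2 * x * z) ^ 2
        + (k - t1 * z - t2 * y - s * y * z - s / 2 * y * z) ^ 2) := by positivity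
  have key : a ^ 2 + b ^ 2 + c ^ 2 + 2 * (f ^ 2 + g ^ 2 + k ^ 2)
      - (3 / 2 * s ^ 2 + 2 * (t0 * t0 + t1 * t1 + t2 * t2))
      = (a - 2 * t0 * x - s * x ^ 2 + s / 2 * (1 - x ^ 2)) ^ 2
      + (b - 2 * t1 * y - s * y ^ 2 + s / 2 * (1 - y ^ 2)) ^ 2
      + (c - 2 * t2 * z - s * z ^ 2 + s / 2 * (1 - z ^ 2)) ^ 2
      + 2 * ((f - t0 * y - t1 * x - s * x * y - s / 2 * x * y) ^ 2
        + (g - t0 * z - t2 * x - s * x * z - s / 2 * x * z) ^ 2
        + (k - t1 * z - t2 * y - s * y * z - s / 2 * y * z) ^ 2) := by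
    linear_combination (-2 * (t0 * t0 + t1 * t1 + t2 * t2)
        - 9 / 4 * s ^ 2 * (x ^ 2 + y ^ 2 + z ^ 2 - 1)) * he
      + (-2 * (t0 * x + t1 * y + t2 * z) + 9 * s - 6 * s * (x ^ 2 + y ^ 2 + z ^ 2)) * hort
      - s * htr + (4 * t0 + 3 * s * x) * E0 + (4 * t1 + 3 * s * y) * E1 + (4 * t2 + 3 * s * z) * E2
  linarith [key, q]

/-- The antisymmetric part of the gradient vanishes on the direction of the vorticity. -/
theorem anti_dirv (v : V → V) (x : V) :
    (∑ j, (grad v x 0 j - grad v x j 0) * dirv v x j = 0) ∧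
    (∑ j, (grad v x 1 j - grad v x j 1) * dirv v x j = 0) ∧
    (∑ j, (grad v x 2 j - grad v x j 2) * dirv v x j = 0) := by
  simp only [Fin.sum_univ_three, dirv, vort, Pi.smul_apply, smul_eq_mul, Matrix.cons_val_zero,
    Matrix.cons_val_one, Matrix.cons_val]
  refine ⟨?_, ?_, ?_⟩ <;> ring

/-- `|S|² ≥ 3/2 α² + 2 |turn|²`. -/
theorem strain_ge {v : V → V} {x : V} (htr : (grad v x).trace = 0) (h0 : vort v x ≠ 0) :
    3 / 2 * stretch v x ^ 2 + 2 * (turn v x ⬝ᵥ turn v x) ≤ strainSq v x := by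
  have h1 := dirv_unit h0
  have h2 := anti_dirv v x
  have h3 : dirv v x 0 ^ 2 + dirv v x 1 ^ 2 + dirv v x 2 ^ 2 = 1 := by
    rw [← h1]
    simp only [dotProduct, Fin.sum_univ_three]
    ring
  exact strain_alg (grad v x) (by simpa [Matrix.trace, Fin.sum_univ_three] using htr) (dirv v x) h3
    h2.1 h2.2.1 h2.2.2

/-- The criterion with `θ = 7/4` in terms of the strain. -/
theorem crit_le {v : V → V} {q : V → ℝ} {x : V} (htr : (grad v x).trace = 0)
    (h0 : vort v x ≠ 0) :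
    crit (7 / 4) v q x ≤ (strainSq v x - 2 * (dirv v x ⬝ᵥ (hess q x).mulVec (dirv v x))) / 2 := by
  have h1 := strain_ge htr h0
  unfold crit
  linarith

/-- `|S|² = |ω|² / 2 + tr (∇u)²`. -/
theorem strain_alg2 (v : V → V) (x : V) :
    strainSq v x = (vort v x ⬝ᵥ vort v x) / 2 + (grad v x * grad v x).trace := by
  simp only [strainSq, vort, Matrix.trace, Matrix.diag_apply, Matrix.mul_apply, dotProduct,
    Fin.sum_univ_three, Matrix.cons_val_zero, Matrix.cons_val_one, Matrix.cons_val]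
  ring

/-- The Laplacian of the pressure is `- tr (∇u)²`. -/
theorem trace_hess (h : IsC2Solution T u p) {t : ℝ} (ht : t ∈ Ioo 0 T) (x : V) :
    (hess (p t) x).trace = -(grad (u t) x * grad (u t) x).trace := by
  have h2 : t / 2 < t := by linarith [ht.1]
  obtain ⟨X, hX, hXx⟩ := exists_traj h.sol (a := t / 2) (b := t) (by linarith [ht.1]) h2.le ht.2 x
  have hsub : Icc (t / 2) t ⊆ Ioo 0 T := fun s hs =>
    ⟨by linarith [hs.1, ht.1], hs.2.trans_lt ht.2⟩
  have htI : t ∈ Icc (t / 2) t := ⟨h2.le, le_rfl⟩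
  have hd := fun i => grad_deriv h hX hsub htI i i
  have h3 : HasDerivWithinAt (fun s => (grad (u s) (X s)).trace)
      (∑ i, (-(grad (u t) (X t) * grad (u t) (X t)) i i - hess (p t) (X t) i i))
      (Icc (t / 2) t) t :=
    HasDerivWithinAt.fun_sum fun i _ => hd i
  have h4 : HasDerivWithinAt (fun s => (grad (u s) (X s)).trace) 0 (Icc (t / 2) t) t := by
    refine (hasDerivWithinAt_const t (Icc (t / 2) t) (0 : ℝ)).congr (fun s hs => ?_) ?_
    · exact h.sol.div_free s ⟨(hsub hs).1.le, (hsub hs).2⟩ (X s)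
    · exact h.sol.div_free t ⟨ht.1.le, ht.2⟩ (X t)
  have h5 := (uniqueDiffOn_Icc h2 t htI).eq_deriv _ h3 h4
  rw [hXx] at h5
  rw [Finset.sum_sub_distrib, Finset.sum_neg_distrib] at h5
  simp only [Matrix.trace, Matrix.diag_apply]
  linarith

/-- `|S|² = |ω|² / 2 - Δp`. -/
theorem strain_pressure (h : IsC2Solution T u p) {t : ℝ} (ht : t ∈ Ioo 0 T) (x : V) :
    strainSq (u t) x = (vort (u t) x ⬝ᵥ vort (u t) x) / 2 - (hess (p t) x).trace := by
  rw [trace_hess h ht, strain_alg2]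
  ring

/-- A one-sided bound for a symmetric matrix `B` bounds `tr B` from below by `e·Be - 2m`. -/
theorem trace_ge (B : Matrix (Fin 3) (Fin 3) ℝ) {m : ℝ}
    (hm : ∀ e : V, -m * (e ⬝ᵥ e) ≤ e ⬝ᵥ B.mulVec e) (e : V) (he : e ⬝ᵥ e = 1) :
    e ⬝ᵥ B.mulVec e - 2 * m ≤ B.trace := by
  have h0 := hm ![0, e 2, -e 1]
  have h1 := hm ![-e 2, 0, e 0]
  have h2 := hm ![e 1, -e 0, 0]
  simp only [dotProduct, Matrix.mulVec, Fin.sum_univ_three, Matrix.cons_val_zero,
    Matrix.cons_val_one, Matrix.cons_val] at h0 h1 h2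
  simp only [dotProduct, Matrix.mulVec, Fin.sum_univ_three, Matrix.trace, Matrix.diag_apply] at he ⊢
  have key : (e 0 * e 0 + e 1 * e 1 + e 2 * e 2) * (B 0 0 + B 1 1 + B 2 2)
      - (e 0 * (B 0 0 * e 0 + B 0 1 * e 1 + B 0 2 * e 2)
        + e 1 * (B 1 0 * e 0 + B 1 1 * e 1 + B 1 2 * e 2)
        + e 2 * (B 2 0 * e 0 + B 2 1 * e 1 + B 2 2 * e 2))
      + 2 * m * (e 0 * e 0 + e 1 * e 1 + e 2 * e 2) ≥ 0 := by
    nlinarith [h0, h1, h2]
  rw [he] at key
  linarith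

/-- With a one-sided bound for the pressure Hessian, `|S|² - 2 ξ·D²p ξ ≤ |ω|² / 2 + 5 m`. -/
theorem strain_one_sided (h : IsC2Solution T u p) {t : ℝ} (ht : t ∈ Ioo 0 T) {x : V}
    (h0 : vort (u t) x ≠ 0) {m : ℝ}
    (hm : ∀ e : V, -m * (e ⬝ᵥ e) ≤ e ⬝ᵥ (hess (p t) x).mulVec e) :
    strainSq (u t) x - 2 * (dirv (u t) x ⬝ᵥ (hess (p t) x).mulVec (dirv (u t) x))
      ≤ (nrm (vort (u t) x) ^ 2 + 10 * m) / 2 := by
  have h1 := dirv_unit h0
  have h2 := trace_ge (hess (p t) x) hm (dirv (u t) x) h1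
  have h3 := hm (dirv (u t) x)
  rw [h1] at h3
  rw [strain_pressure h ht, nrm_sq]
  linarith

end Pool.Agent.L5helper39.EU
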