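import Pool.Agent.H708R2.EulerTypeI.Main
import Pool.Agent.H708R2.EulerTypeI.Sharp

/-!
# One-sided comparison along a piece of a trajectory
-/

open MeasureTheory Set
open scoped ENNReal NNReal Topology

namespace Pool.Agent.L5helper39.EU

open Pool.Agent.H708R2.EulerSign Pool.Agent.H708R2.EulerTypeI

/-- One-sided comparison: if `ρ ≥ 0`, `ρ'' ≤ (R''/R) ρ`, `R` is positive and `R a ≤ R t` then
`ρ ≤ C R` with a constant that depends only on the positive part of the initial Wronskian. -/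
theorem comp_pos {a b : ℝ} (hab : a ≤ b) {ρ ρ1 ρ2 R R1 R2 : ℝ → ℝ}
    (hρ : ∀ t ∈ Icc a b, HasDerivWithinAt ρ (ρ1 t) (Icc a b) t)
    (hρ1 : ∀ t ∈ Icc a b, HasDerivWithinAt ρ1 (ρ2 t) (Icc a b) t)
    (hR : ∀ t ∈ Icc a b, HasDerivWithinAt R (R1 t) (Icc a b) t)
    (hR1 : ∀ t ∈ Icc a b, HasDerivWithinAt R1 (R2 t) (Icc a b) t)
    (hRpos : ∀ t ∈ Icc a b, 0 < R t) (hRmono : ∀ t ∈ Icc a b, R a ≤ R t)
    (h2 : ∀ t ∈ Icc a b, ρ2 t * R t ≤ R2 t * ρ t) {w : ℝ} (hw0 : 0 ≤ w)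
    (hw : ρ1 a * R a - ρ a * R1 a ≤ w) :
    ρ b ≤ (ρ a / R a + w * (b - a) / (R a) ^ 2) * R b := by
  have haI : a ∈ Icc a b := ⟨le_rfl, hab⟩
  have hbI : b ∈ Icc a b := ⟨hab, le_rfl⟩
  have hRa := hRpos a haI
  set W : ℝ → ℝ := fun t => ρ1 t * R t - ρ t * R1 t with hW
  have hWd : ∀ t ∈ Icc a b, HasDerivWithinAt W (ρ2 t * R t - ρ t * R2 t) (Icc a b) t := by
    intro t ht
    have := ((hρ1 t ht).mul (hR t ht)).sub ((hρ t ht).mul (hR1 t ht))
    refine this.congr_deriv ?_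
    ring
  have hWle : ∀ t ∈ Icc a b, W t ≤ w := by
    refine image_le_of_deriv_right_le_deriv_boundary (f := W)
      (f' := fun t => ρ2 t * R t - ρ t * R2 t) (B := fun _ => w) (B' := fun _ => 0) ?_ ?_ hw
      continuousOn_const (fun t ht => hasDerivWithinAt_const _ _ _) ?_
    · exact fun t ht => (hWd t ht).continuousWithinAt
    · exact fun t ht => right_of_Icc ht (hWd t (Ico_subset_Icc_self ht))
    · intro t ht
      have := h2 t (Ico_subset_Icc_self ht)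
      linarith
  have hqd : ∀ t ∈ Icc a b, HasDerivWithinAt (fun t => ρ t / R t) (W t / (R t) ^ 2) (Icc a b) t := by
    intro t ht
    exact (hρ t ht).div (hR t ht) (hRpos t ht).ne'
  have hq : ∀ t ∈ Icc a b, ρ t / R t ≤ ρ a / R a + w / (R a) ^ 2 * (t - a) := by
    refine image_le_of_deriv_right_le_deriv_boundary (f := fun t => ρ t / R t)
      (f' := fun t => W t / (R t) ^ 2)
      (B' := fun _ => w / (R a) ^ 2) ?_ ?_ (by simp)
      (by fun_prop) (fun t ht => ?_) ?_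
    · exact fun t ht => (hqd t ht).continuousWithinAt
    · exact fun t ht => right_of_Icc ht (hqd t (Ico_subset_Icc_self ht))
    · have := (((hasDerivAt_id t).sub_const a).const_mul (w / (R a) ^ 2)).const_add (ρ a / R a)
      simpa using this.hasDerivWithinAt
    · intro t ht
      have htI := Ico_subset_Icc_self ht
      have h3 := hWle t htI
      have hRt := hRpos t htI
      have h5 : (R a) ^ 2 ≤ (R t) ^ 2 := by
        have := hRmono t htI
        gcongr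
      calc W t / (R t) ^ 2 ≤ w / (R t) ^ 2 := by gcongr
        _ ≤ w / (R a) ^ 2 := by gcongr
  have h3 := hq b hbI
  rw [div_le_iff₀ (hRpos b hbI)] at h3
  refine h3.trans (le_of_eq ?_)
  ring

variable {T : ℝ} {u : ℝ → V → V} {p : ℝ → V → ℝ}

/-- The stretching rate in terms of the vorticity. -/
theorem stretch_eq {v : V → V} {x : V} (h0 : vort v x ≠ 0) :
    stretch v x * (vort v x ⬝ᵥ vort v x) = vort v x ⬝ᵥ (grad v x).mulVec (vort v x) := by
  have hn := nrm_pos h0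
  have hsq := nrm_sq (vort v x)
  have d1 : dirv v x = (nrm (vort v x))⁻¹ • vort v x := rfl
  unfold stretch
  rw [d1, Matrix.mulVec_smul, smul_dotProduct, dotProduct_smul, smul_eq_mul, smul_eq_mul, ← hsq]
  field_simp

/-- One-sided comparison for the vorticity along a piece of a trajectory. -/
theorem traj_comp (h : IsC2Solution T u p) {a b : ℝ} (hab : a ≤ b) (hsub : Icc a b ⊆ Ioo 0 T)
    {X : ℝ → V} (hX : IsTraj u X a b) (hne : ∀ t ∈ Icc a b, vort (u t) (X t) ≠ 0) {θ : ℝ}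
    (hθ : 0 < θ) {R R1 R2 : ℝ → ℝ}
    (hR : ∀ t ∈ Icc a b, HasDerivAt R (R1 t) t) (hR1 : ∀ t ∈ Icc a b, HasDerivAt R1 (R2 t) t)
    (hRpos : ∀ t ∈ Icc a b, 0 < R t) (hR1pos : ∀ t ∈ Icc a b, 0 ≤ R1 t)
    (hyp : ∀ t ∈ Icc a b, θ * crit θ (u t) (p t) (X t) ≤ R2 t / R t) {S : ℝ} (hS0 : 0 ≤ S)
    (hS : stretch (u a) (X a) ≤ S) :
    nrm (vort (u b) (X b)) ^ θ
      ≤ nrm (vort (u a) (X a)) ^ θ * (1 + θ * S * (b - a)) / R a * R b := by
  have haI : a ∈ Icc a b := ⟨le_rfl, hab⟩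
  -- abbreviations along the trajectory
  set y : ℝ → V := fun t => vort (u t) (X t) with hy
  set y1 : ℝ → V := fun t => (grad (u t) (X t)).mulVec (vort (u t) (X t)) with hy1
  set y2 : ℝ → V := fun t => -(hess (p t) (X t)).mulVec (vort (u t) (X t)) with hy2
  have hyd : ∀ t ∈ Icc a b, HasDerivWithinAt y (y1 t) (Icc a b) t := fun t ht =>
    vort_deriv h hX hsub ht
  have hy1d : ∀ t ∈ Icc a b, HasDerivWithinAt y1 (y2 t) (Icc a b) t := fun t ht =>
    vort_deriv2 h hX hsub ht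
  have hpos : ∀ t ∈ Icc a b, 0 < y t ⬝ᵥ y t := by
    intro t ht
    rw [← nrm_sq]
    have := nrm_pos (hne t ht)
    positivity
  have dotd : ∀ {f g : ℝ → V} {f' g' : V} {t : ℝ}, HasDerivWithinAt f f' (Icc a b) t →
      HasDerivWithinAt g g' (Icc a b) t →
      HasDerivWithinAt (fun t => f t ⬝ᵥ g t) (f' ⬝ᵥ g t + f t ⬝ᵥ g') (Icc a b) t := by
    intro f g f' g' t hf hg
    have h1 : HasDerivWithinAt (fun t => ∑ i, f t i * g t i)
        (∑ i, (f' i * g t i + f t i * g' i)) (Icc a b) t :=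
      HasDerivWithinAt.fun_sum fun i _ =>
        (hasDerivWithinAt_pi.1 hf i).mul (hasDerivWithinAt_pi.1 hg i)
    refine h1.congr_deriv ?_
    simp [dotProduct, Finset.sum_add_distrib]
  set ρ : ℝ → ℝ := fun t => (y t ⬝ᵥ y t) ^ (θ / 2) with hρ
  set ρ1 : ℝ → ℝ := fun t => θ * (y t ⬝ᵥ y t) ^ (θ / 2 - 1) * (y t ⬝ᵥ y1 t) with hρ1
  set ρ2 : ℝ → ℝ := fun t => θ * ((θ - 2) * (y t ⬝ᵥ y t) ^ (θ / 2 - 2) * (y t ⬝ᵥ y1 t) ^ 2
    + (y t ⬝ᵥ y t) ^ (θ / 2 - 1) * (y1 t ⬝ᵥ y1 t + y t ⬝ᵥ y2 t)) with hρ2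
  have hρd : ∀ t ∈ Icc a b, HasDerivWithinAt ρ (ρ1 t) (Icc a b) t := by
    intro t ht
    have h1 := dotd (hyd t ht) (hyd t ht)
    have h2 := h1.rpow_const (p := θ / 2) (Or.inl (hpos t ht).ne')
    refine h2.congr_deriv ?_
    simp only [hρ1]
    rw [dotProduct_comm (y1 t) (y t)]
    ring
  have hρ1d : ∀ t ∈ Icc a b, HasDerivWithinAt ρ1 (ρ2 t) (Icc a b) t := by
    intro t ht
    have h1 := dotd (hyd t ht) (hyd t ht)
    have h2 := (h1.rpow_const (p := θ / 2 - 1) (Or.inl (hpos t ht).ne')).const_mul θ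
    have h3 := dotd (hyd t ht) (hy1d t ht)
    refine (h2.mul h3).congr_deriv ?_
    simp only [hρ2]
    rw [dotProduct_comm (y1 t) (y t)]
    have e : θ / 2 - 1 - 1 = θ / 2 - 2 := by ring
    rw [e]
    ring
  have hcr : ∀ t ∈ Icc a b, ρ2 t = θ * crit θ (u t) (p t) (X t) * ρ t := by
    intro t ht
    have hp0 := hpos t ht
    have h1 := crit_eq θ (v := u t) (q := p t) (x := X t) (hne t ht)
    have e1 : (y t ⬝ᵥ y t) ^ (θ / 2 - 1) = (y t ⬝ᵥ y t) ^ (θ / 2) / (y t ⬝ᵥ y t) := by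
      rw [Real.rpow_sub_one hp0.ne']
    have e2 : (y t ⬝ᵥ y t) ^ (θ / 2 - 2) = (y t ⬝ᵥ y t) ^ (θ / 2) / (y t ⬝ᵥ y t) ^ 2 := by
      rw [Real.rpow_sub hp0, Real.rpow_two]
    have e3 : crit θ (u t) (p t) (X t)
        = ((y1 t ⬝ᵥ y1 t) * (y t ⬝ᵥ y t) + (θ - 2) * (y t ⬝ᵥ y1 t) ^ 2
          + (y t ⬝ᵥ y2 t) * (y t ⬝ᵥ y t)) / (y t ⬝ᵥ y t) ^ 2 := by
      rw [eq_div_iff (by positivity), h1]
      simp only [hy2, dotProduct_neg]
      ring
    simp only [hρ2, hρ]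
    rw [e1, e2, e3]
    field_simp
    ring
  have hmonoR : ∀ t ∈ Icc a b, R a ≤ R t := by
    have hm : MonotoneOn R (Icc a b) := by
      refine monotoneOn_of_deriv_nonneg (convex_Icc _ _) ?_ ?_ ?_
      · exact fun t ht => (hR t ht).continuousAt.continuousWithinAt
      · intro t ht
        exact (hR t (interior_subset ht)).differentiableAt.differentiableWithinAt
      · intro t ht
        rw [(hR t (interior_subset ht)).deriv]
        exact hR1pos t (interior_subset ht)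
    intro t ht
    exact hm haI ht ht.1
  have hρ0 : ∀ t ∈ Icc a b, 0 ≤ ρ t := fun t ht => Real.rpow_nonneg (hpos t ht).le _
  have hρnrm : ∀ t, ρ t = nrm (vort (u t) (X t)) ^ θ := by
    intro t
    simp only [hρ]
    rw [show y t ⬝ᵥ y t = nrm (vort (u t) (X t)) ^ (2 : ℝ) by
      rw [Real.rpow_two, nrm_sq], ← Real.rpow_mul (nrm_nonneg _)]
    congr 1
    ring
  have hRa := hRpos a haI
  have hW : ρ1 a * R a - ρ a * R1 a ≤ θ * S * ρ a * R a := by
    have h1 : ρ1 a = θ * stretch (u a) (X a) * ρ a := by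
      have hp0 := hpos a haI
      have h2 := stretch_eq (hne a haI)
      simp only [hρ1, hρ]
      rw [Real.rpow_sub_one hp0.ne']
      simp only [hy, hy1] at hp0 ⊢
      rw [← h2]
      field_simp
    have h3 : 0 ≤ ρ a * R1 a := mul_nonneg (hρ0 a haI) (hR1pos a haI)
    have h4 : θ * stretch (u a) (X a) * ρ a * R a ≤ θ * S * ρ a * R a := by
      have := hρ0 a haI
      gcongr
    rw [h1]
    linarith
  have hba : 0 ≤ b - a := sub_nonneg.2 hab
  have key := comp_pos hab hρd hρ1d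
    (fun t ht => (hR t ht).hasDerivWithinAt)
    (fun t ht => (hR1 t ht).hasDerivWithinAt)
    hRpos hmonoR (fun t ht => by
      rw [hcr t ht]
      have h1 := hyp t ht
      rw [le_div_iff₀ (hRpos t ht)] at h1
      have h2 := hρ0 t ht
      nlinarith)
    (w := θ * S * ρ a * R a) (by have := hρ0 a haI; positivity) hW
  rw [hρnrm, hρnrm] at key
  refine key.trans (le_of_eq ?_)
  field_simp

end Pool.Agent.L5helper39.EU
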