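import Pool.Agent.H708R2.EulerTypeI.Exist

/-!
# The level of the vorticity and the hypothesis of the one-sided criteria
-/

open MeasureTheory Set Filter
open scoped ENNReal NNReal Topology

namespace Pool.Agent.L5helper39.EU

open Pool.Agent.H708R2.EulerSign Pool.Agent.H708R2.EulerTypeI

/-- The level `δ / ((T - t) log (1/(T-t))^γ)` of the vorticity. -/
noncomputable def level (T δ γ t : ℝ) : ℝ := δ / ((T - t) * Real.log (1 / (T - t)) ^ γ)

/-- The hypothesis of the criteria for a quantity `Q(t, x)`. For all `t < T` near `T` and all `x`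
with nonzero vorticity: if the vorticity is at least `level T δ γ t`, then
`(T - t)² Q(t, x) ≤ A - κ / log (1/(T-t))`; if it is equal to this level, then the stretching rate
`ξ · (∇u) ξ` is at most `M / (T - t)`. For `δ = 0` the second part is void and the first part is
required at all points of nonzero vorticity. -/
def Hyp (T δ γ M A κ : ℝ) (u : ℝ → V → V) (Q : ℝ → V → ℝ) : Prop :=
  ∀ᶠ t in 𝓝[<] T, ∀ x, vort (u t) x ≠ 0 →
    (level T δ γ t ≤ nrm (vort (u t) x) →
      (T - t) ^ 2 * Q t x ≤ A - κ / Real.log (1 / (T - t))) ∧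
    (nrm (vort (u t) x) = level T δ γ t → (T - t) * stretch (u t) x ≤ M)

/-- The second derivative of the pressure in the direction `ξ = ω / |ω|` of the vorticity. -/
noncomputable def pressDir (v : V → V) (q : V → ℝ) (x : V) : ℝ :=
  dirv v x ⬝ᵥ (hess q x).mulVec (dirv v x)

end Pool.Agent.L5helper39.EU
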