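import Pool.Agent.L5helper39.EU.Cmp

/-!
# Comparison where the vorticity is large
-/

open MeasureTheory Set
open scoped ENNReal NNReal Topology

namespace Pool.Agent.L5helper39.EU

open Pool.Agent.H708R2.EulerSign Pool.Agent.H708R2.EulerTypeI

variable {T : ℝ} {u : ℝ → V → V} {p : ℝ → V → ℝ}

/-- The stretching rate is bounded at each time. -/
theorem stretch_bound (h : IsClassicalSolution (Ico 0 T) u p) {b : ℝ} (hb : b < T) :
    ∃ C : ℝ, 0 ≤ C ∧ ∀ t ∈ Icc 0 b, ∀ x, vort (u t) x ≠ 0 →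
      nrm (vort (u t) x) ≤ C ∧ stretch (u t) x ≤ C := by
  obtain ⟨M, hM0, hM⟩ := vort_bound h hb
  refine ⟨M, hM0, fun t ht x hx => ⟨(hM t ht x).1, ?_⟩⟩
  have h1 := (hM t ht x).2.2
  have h2 := stretch_eq hx
  have h3 := nrm_pos hx
  have h4 := nrm_sq (vort (u t) x)
  have h5 : 0 < vort (u t) x ⬝ᵥ vort (u t) x := by rw [← h4]; positivity
  have h6 : stretch (u t) x * (vort (u t) x ⬝ᵥ vort (u t) x)
      ≤ M * (vort (u t) x ⬝ᵥ vort (u t) x) := by
    rw [h2]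
    exact (le_abs_self _).trans h1
  exact le_of_mul_le_mul_right h6 h5

/-- The norm of the vorticity along a trajectory is continuous. -/
theorem nrm_cont (h : IsC2Solution T u p) {X : ℝ → V} {a b : ℝ} (hX : IsTraj u X a b)
    (hab : Icc a b ⊆ Ioo 0 T) : ContinuousOn (fun t => nrm (vort (u t) (X t))) (Icc a b) := by
  have h1 : ContinuousOn (fun t => vort (u t) (X t)) (Icc a b) := fun t ht =>
    (vort_deriv h hX hab ht).continuousWithinAt
  have h2 : Continuous nrm := by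
    unfold nrm
    exact Real.continuous_sqrt.comp (by simp only [dotProduct]; fun_prop)
  exact h2.comp_continuousOn h1

/-- Comparison under a hypothesis at the points of large vorticity. -/
theorem loc_comp (h : IsC2Solution T u p) {t₀ : ℝ} (ht₀ : t₀ ∈ Ioo 0 T) {θ : ℝ} (hθ : 0 < θ)
    {R R1 R2 G : ℝ → ℝ}
    (hR : ∀ t ∈ Ico t₀ T, HasDerivAt R (R1 t) t) (hR1 : ∀ t ∈ Ico t₀ T, HasDerivAt R1 (R2 t) t)
    (hRpos : ∀ t ∈ Ico t₀ T, 0 < R t) (hR1pos : ∀ t ∈ Ico t₀ T, 0 ≤ R1 t)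
    (hG : ContinuousOn G (Ico t₀ T)) {D M : ℝ} (hD : 0 ≤ D)
    (hGR : ∀ t ∈ Ico t₀ T, G t ^ θ ≤ D * R t)
    (hyp : ∀ t ∈ Ico t₀ T, ∀ x, vort (u t) x ≠ 0 → G t ≤ nrm (vort (u t) x) →
      θ * crit θ (u t) (p t) x ≤ R2 t / R t)
    (hyp2 : ∀ t ∈ Ico t₀ T, ∀ x, vort (u t) x ≠ 0 → nrm (vort (u t) x) = G t →
      (T - t) * stretch (u t) x ≤ M) :
    ∃ C : ℝ, 0 ≤ C ∧ ∀ t ∈ Ico t₀ T, ∀ x, nrm (vort (u t) x) ^ θ ≤ C * R t := by
  obtain ⟨K, hK0, hK⟩ := stretch_bound h.sol ht₀.2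
  have h00 : t₀ ∈ Icc 0 t₀ := ⟨ht₀.1.le, le_rfl⟩
  have hI0 : t₀ ∈ Ico t₀ T := ⟨le_rfl, ht₀.2⟩
  have hRp := hRpos t₀ hI0
  have hTt : 0 < T - t₀ := sub_pos.2 ht₀.2
  set B := K ^ θ with hB
  have hB0 : 0 ≤ B := Real.rpow_nonneg hK0 θ
  set M' := max M 0 with hM'
  have hM'0 : 0 ≤ M' := le_max_right _ _
  set C1 := B * (1 + θ * K * (T - t₀)) / R t₀ with hC1
  set C2 := D * (1 + θ * M') with hC2
  have hC10 : 0 ≤ C1 := by positivity
  have hC20 : 0 ≤ C2 := by positivity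
  refine ⟨C1 + C2, by positivity, fun t₁ ht₁ x => ?_⟩
  have hRt₁ := hRpos t₁ ht₁
  by_cases hx0 : vort (u t₁) x = 0
  · rw [hx0]
    have : nrm (0 : V) = 0 := by simp [nrm]
    rw [this, Real.zero_rpow hθ.ne']
    positivity
  by_cases hlow : nrm (vort (u t₁) x) ≤ G t₁
  · calc nrm (vort (u t₁) x) ^ θ ≤ G t₁ ^ θ := Real.rpow_le_rpow (nrm_nonneg _) hlow hθ.le
      _ ≤ D * R t₁ := hGR t₁ ht₁
      _ ≤ (C1 + C2) * R t₁ := by
        have : D ≤ C2 := by
          rw [hC2]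
          nlinarith [mul_nonneg hD (mul_nonneg hθ.le hM'0)]
        gcongr
        linarith
  obtain ⟨X, hX, hXx⟩ := exists_traj h.sol ht₀.1.le ht₁.1 ht₁.2 x
  have hsub : Icc t₀ t₁ ⊆ Ico t₀ T := Icc_subset_Ico_right ht₁.2
  have hsub2 : Icc t₀ t₁ ⊆ Ioo 0 T := fun t ht => ⟨ht₀.1.trans_le ht.1, ht.2.trans_lt ht₁.2⟩
  have hne := vort_ne_zero h hX hsub2 (by rwa [hXx])
  have hcn := nrm_cont h hX hsub2
  have hcG : ContinuousOn G (Icc t₀ t₁) := hG.mono hsub
  -- the times at which the vorticity is small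
  set Z : Set ℝ := {t ∈ Icc t₀ t₁ | nrm (vort (u t) (X t)) ≤ G t} with hZ
  by_cases hZe : Z = ∅
  · have hlarge : ∀ t ∈ Icc t₀ t₁, G t ≤ nrm (vort (u t) (X t)) := by
      intro t ht
      by_contra hcon
      have : t ∈ Z := ⟨ht, (not_le.1 hcon).le⟩
      rw [hZe] at this
      exact this
    have hI : t₀ ∈ Icc t₀ t₁ := ⟨le_rfl, ht₁.1⟩
    have hb := hK t₀ h00 (X t₀) (hne t₀ hI)
    have key := traj_comp h ht₁.1 hsub2 hX hne hθ
      (fun t ht => hR t (hsub ht)) (fun t ht => hR1 t (hsub ht)) (fun t ht => hRpos t (hsub ht))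
      (fun t ht => hR1pos t (hsub ht))
      (fun t ht => hyp t (hsub ht) (X t) (hne t ht) (hlarge t ht)) hK0 hb.2
    rw [hXx] at key
    have hb2 : nrm (vort (u t₀) (X t₀)) ^ θ ≤ B := Real.rpow_le_rpow (nrm_nonneg _) hb.1 hθ.le
    have hb3 : t₁ - t₀ ≤ T - t₀ := by have := ht₁.2; linarith
    have hb4 : 0 ≤ t₁ - t₀ := by have := ht₁.1; linarith
    calc nrm (vort (u t₁) x) ^ θ
        ≤ nrm (vort (u t₀) (X t₀)) ^ θ * (1 + θ * K * (t₁ - t₀)) / R t₀ * R t₁ := key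
      _ ≤ C1 * R t₁ := by
        rw [hC1]
        gcongr
      _ ≤ (C1 + C2) * R t₁ := by
        gcongr
        linarith
  · have hZne : Z.Nonempty := Set.nonempty_iff_ne_empty.2 hZe
    have hZc : IsClosed Z := by
      have h1 : ContinuousOn (fun t => nrm (vort (u t) (X t)) - G t) (Icc t₀ t₁) := hcn.sub hcG
      have h2 := h1.preimage_isClosed_of_isClosed isClosed_Icc (isClosed_Iic (a := (0 : ℝ)))
      convert h2 using 1
      ext t
      simp [hZ]
    have hZb : BddAbove Z := ⟨t₁, fun t ht => ht.1.2⟩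
    have hsZ : sSup Z ∈ Z := hZc.csSup_mem hZne hZb
    set s := sSup Z with hs
    have hst : s < t₁ := by
      refine lt_of_le_of_ne hsZ.1.2 fun heq => hlow ?_
      have := hsZ.2
      rw [heq, hXx] at this
      exact this
    have hgt : ∀ t ∈ Ioc s t₁, G t < nrm (vort (u t) (X t)) := by
      intro t ht
      by_contra hcon
      have h1 : t ∈ Z := ⟨⟨hsZ.1.1.trans ht.1.le, ht.2⟩, not_lt.1 hcon⟩
      exact absurd (le_csSup hZb h1) (not_le.2 ht.1)
    have hsub3 : Icc s t₁ ⊆ Icc t₀ t₁ := Icc_subset_Icc_left hsZ.1.1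
    have hseq : nrm (vort (u s) (X s)) = G s := by
      refine le_antisymm hsZ.2 ?_
      have h1 : ContinuousWithinAt (fun t => nrm (vort (u t) (X t)) - G t) (Ioc s t₁) s :=
        (((hcn.sub hcG) s hsZ.1).mono (Ioc_subset_Icc_self.trans hsub3))
      have h2 : (𝓝[Ioc s t₁] s).NeBot := by
        rw [← mem_closure_iff_nhdsWithin_neBot, closure_Ioc hst.ne]
        exact ⟨le_rfl, hst.le⟩
      have h3 : 0 ≤ nrm (vort (u s) (X s)) - G s := by
        refine ge_of_tendsto h1 ?_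
        filter_upwards [self_mem_nhdsWithin] with t ht
        exact (sub_pos.2 (hgt t ht)).le
      linarith
    have hlarge : ∀ t ∈ Icc s t₁, G t ≤ nrm (vort (u t) (X t)) := by
      intro t ht
      rcases ht.1.eq_or_lt with heq | hlt
      · rw [← heq]; exact hseq.ge
      · exact (hgt t ⟨hlt, ht.2⟩).le
    have hXs : IsTraj u X s t₁ := fun t ht => (hX t (hsub3 ht)).mono hsub3
    have hTs : 0 < T - s := sub_pos.2 (hst.trans ht₁.2)
    have hss : stretch (u s) (X s) ≤ M' / (T - s) := by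
      have h1 := hyp2 s (hsub hsZ.1) (X s) (hne s hsZ.1) hseq
      rw [le_div_iff₀ hTs]
      calc stretch (u s) (X s) * (T - s) = (T - s) * stretch (u s) (X s) := by ring
        _ ≤ M := h1
        _ ≤ M' := le_max_left _ _
    have key := traj_comp h hst.le (fun t ht => hsub2 (hsub3 ht)) hXs
      (fun t ht => hne t (hsub3 ht)) hθ
      (fun t ht => hR t (hsub (hsub3 ht))) (fun t ht => hR1 t (hsub (hsub3 ht)))
      (fun t ht => hRpos t (hsub (hsub3 ht)))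
      (fun t ht => hR1pos t (hsub (hsub3 ht)))
      (fun t ht => hyp t (hsub (hsub3 ht)) (X t) (hne t (hsub3 ht)) (hlarge t ht))
      (by positivity : 0 ≤ M' / (T - s)) hss
    rw [hXx, hseq] at key
    have hRs := hRpos s (hsub hsZ.1)
    have h5 := hGR s (hsub hsZ.1)
    have h6 : (t₁ - s) / (T - s) ≤ 1 := by
      rw [div_le_one hTs]
      have := ht₁.2
      linarith
    have h7 : 0 ≤ (t₁ - s) / (T - s) := div_nonneg (sub_pos.2 hst).le hTs.le
    calc nrm (vort (u t₁) x) ^ θ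
        ≤ G s ^ θ * (1 + θ * (M' / (T - s)) * (t₁ - s)) / R s * R t₁ := key
      _ = G s ^ θ * (1 + θ * M' * ((t₁ - s) / (T - s))) / R s * R t₁ := by ring
      _ ≤ (D * R s) * (1 + θ * M' * 1) / R s * R t₁ := by gcongr
      _ = C2 * R t₁ := by
        rw [hC2]
        field_simp
      _ ≤ (C1 + C2) * R t₁ := by
        gcongr
        linarith

end Pool.Agent.L5helper39.EU
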