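import Pool.Agent.L5helper39.EU.Loc
import Pool.Agent.L5helper39.EU.Alg
import Pool.Agent.L5helper39.EU.Defs

/-!
# One-sided criteria and their sharpness
-/

open MeasureTheory Set Filter
open scoped ENNReal NNReal Topology

namespace Pool.Agent.L5helper39.EU

open Pool.Agent.H708R2.EulerSign Pool.Agent.H708R2.EulerTypeI

variable {T : ℝ} {u : ℝ → V → V} {p : ℝ → V → ℝ}

theorem level_eq {δ γ t : ℝ} (hL : 0 < Lf T t) :
    level T δ γ t = δ * (1 / (T - t) * (Lf T t) ^ (-γ)) := by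
  unfold level
  rw [← Lf_eq, Real.rpow_neg hL.le]
  rw [div_eq_mul_inv, mul_inv, one_div]

/-- The comparison function is a power. -/
theorem Rf_eq {θ β t : ℝ} (ht : t < T) (hL : 0 < Lf T t) :
    Rf T θ (θ * β) t = (1 / (T - t) * (Lf T t) ^ (-β)) ^ θ := by
  have h4 : 0 < T - t := sub_pos.2 ht
  have h5 : 1 / (T - t) * (Lf T t) ^ (-β) = Real.exp (Lf T t - β * Real.log (Lf T t)) := by
    rw [Real.exp_sub, mul_comm β, ← Real.rpow_def_of_pos hL, Real.rpow_neg hL.le, div_eq_mul_inv]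
    congr 1
    rw [Lf, Real.exp_neg, Real.exp_log h4, one_mul]
  rw [h5, ← Real.exp_mul]
  unfold Rf
  congr 1
  ring

/-- The general criterion. -/
theorem main (hT : 0 < T) (h : IsC2Solution T u p) {θ κ γ δ M : ℝ} (hθ : 0 < θ)
    (hκ : 2 * θ + 1 < κ) (hγ : 1 < γ) (hδ : 0 ≤ δ)
    (hyp : Hyp T δ γ M (θ + 1) κ u (fun t x => crit θ (u t) (p t) x)) :
    (∃ C : ℝ, ∀ᶠ t in 𝓝[<] T, ∀ x, nrm (vort (u t) x)
      ≤ C / ((T - t) * Real.log (1 / (T - t)) ^ min γ (κ / (2 * θ + 1)))) ∧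
    BKMFinite T u := by
  have h2θ : 0 < 2 * θ + 1 := by linarith
  set β := min γ (κ / (2 * θ + 1)) with hβ
  have hβ1 : 1 < β := lt_min hγ ((one_lt_div h2θ).2 hκ)
  have hβγ : β ≤ γ := min_le_left _ _
  have hβκ : (2 * θ + 1) * β ≤ κ := by
    have : β ≤ κ / (2 * θ + 1) := min_le_right _ _
    rw [le_div_iff₀ h2θ] at this
    linarith
  obtain ⟨t₀, ht₀, hP⟩ := exists_start hT hyp (max 1 β)
  have hL : ∀ t ∈ Ico t₀ T, 1 ≤ Lf T t ∧ β ≤ Lf T t := fun t ht =>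
    ⟨(le_max_left _ _).trans (hP t ht).2, (le_max_right _ _).trans (hP t ht).2⟩
  have hLpos : ∀ t ∈ Ico t₀ T, 0 < Lf T t := fun t ht => lt_of_lt_of_le one_pos (hL t ht).1
  have hR1pos : ∀ t ∈ Ico t₀ T,
      0 ≤ Rf T θ (θ * β) t * ((θ - θ * β / Lf T t) / (T - t)) := by
    intro t ht
    have h1 := hLpos t ht
    have h2 : θ * β / Lf T t ≤ θ := by
      rw [div_le_iff₀ h1]
      have := (hL t ht).2
      gcongr
    have h3 : 0 ≤ θ - θ * β / Lf T t := by linarith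
    have h4 : 0 < T - t := sub_pos.2 ht.2
    have h5 := Rf_pos T θ (θ * β) t
    positivity
  have hfac : ∀ t ∈ Ico t₀ T, θ * (θ + 1 - κ / Lf T t) ≤
      (θ * (θ + 1) - (2 * θ + 1) * (θ * β) / Lf T t
        + θ * β * (θ * β + 1) / (Lf T t) ^ 2) := by
    intro t ht
    have h1 := hLpos t ht
    have h2 : (2 * θ + 1) * (θ * β) / Lf T t ≤ θ * (κ / Lf T t) := by
      have h6 : (2 * θ + 1) * (θ * β) ≤ θ * κ := by
        calc (2 * θ + 1) * (θ * β) = θ * ((2 * θ + 1) * β) := by ring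
          _ ≤ θ * κ := by gcongr
      rw [← mul_div_assoc]
      exact div_le_div_of_nonneg_right h6 h1.le
    have h3 : 0 ≤ θ * β * (θ * β + 1) / (Lf T t) ^ 2 := by
      have : 0 < β := by linarith
      positivity
    linarith
  have hcont : ContinuousOn (level T δ γ) (Ico t₀ T) := by
    intro t ht
    have h1 := hLpos t ht
    have h4 : 0 < T - t := sub_pos.2 ht.2
    have h5 : ContinuousAt (fun t => δ * (1 / (T - t) * (Lf T t) ^ (-γ))) t :=
      ContinuousAt.mul continuousAt_const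
        ((ContinuousAt.div continuousAt_const (by fun_prop) h4.ne').mul
          ((Lf_hasDerivAt ht.2).continuousAt.rpow_const (Or.inl h1.ne')))
    exact (h5.continuousWithinAt).congr (fun s hs => level_eq (hLpos s hs)) (level_eq h1)
  have hlevR : ∀ t ∈ Ico t₀ T, level T δ γ t ^ θ ≤ δ ^ θ * Rf T θ (θ * β) t := by
    intro t ht
    have h1 := hLpos t ht
    have h4 : 0 < T - t := sub_pos.2 ht.2
    rw [level_eq h1, Rf_eq ht.2 h1, ← Real.mul_rpow hδ (by positivity)]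
    have h6 : (Lf T t) ^ (-γ) ≤ (Lf T t) ^ (-β) :=
      Real.rpow_le_rpow_of_exponent_le (hL t ht).1 (by linarith)
    gcongr
  obtain ⟨C, hC0, hC⟩ := loc_comp h ht₀ hθ (R := Rf T θ (θ * β))
    (R1 := fun t => Rf T θ (θ * β) t * ((θ - θ * β / Lf T t) / (T - t)))
    (R2 := fun t => Rf T θ (θ * β) t * ((θ * (θ + 1) - (2 * θ + 1) * (θ * β) / Lf T t
      + θ * β * (θ * β + 1) / (Lf T t) ^ 2) / (T - t) ^ 2))
    (G := level T δ γ) (D := δ ^ θ) (M := M)
    (fun t ht => Rf_hasDerivAt ht.2 (hLpos t ht)) (fun t ht => Rf_hasDerivAt2 ht.2 (hLpos t ht))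
    (fun t _ => Rf_pos T θ (θ * β) t) hR1pos hcont (Real.rpow_nonneg hδ θ) hlevR
    (fun t ht x hx hle => by
      have h1 := hfac t ht
      have h4 : 0 < T - t := sub_pos.2 ht.2
      have h5 := Rf_pos T θ (θ * β) t
      have h6 := ((hP t ht).1 x hx).1 hle
      rw [← Lf_eq] at h6
      rw [mul_div_cancel_left₀ _ h5.ne', le_div_iff₀ (by positivity)]
      calc θ * crit θ (u t) (p t) x * (T - t) ^ 2
          = θ * ((T - t) ^ 2 * crit θ (u t) (p t) x) := by ring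
        _ ≤ θ * (θ + 1 - κ / Lf T t) := by gcongr
        _ ≤ _ := h1)
    (fun t ht x hx heq => ((hP t ht).1 x hx).2 heq)
  -- rewriting the bound
  have hfin : ∀ t ∈ Ico t₀ T, ∀ x,
      nrm (vort (u t) x) ≤ C ^ (1 / θ) * (1 / (T - t) * (Lf T t) ^ (-β)) := by
    intro t ht x
    have h1 := hLpos t ht
    have h4 : 0 < T - t := sub_pos.2 ht.2
    have h5 := hC t ht x
    rw [Rf_eq ht.2 h1] at h5
    have h6 : (0 : ℝ) ≤ 1 / (T - t) * (Lf T t) ^ (-β) := by positivity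
    have h7 : C * (1 / (T - t) * (Lf T t) ^ (-β)) ^ θ
        = (C ^ (1 / θ) * (1 / (T - t) * (Lf T t) ^ (-β))) ^ θ := by
      rw [Real.mul_rpow (Real.rpow_nonneg hC0 _) h6, ← Real.rpow_mul hC0,
        one_div_mul_cancel hθ.ne', Real.rpow_one]
    rw [h7] at h5
    exact (Real.rpow_le_rpow_iff (nrm_nonneg _) (by positivity) hθ).1 h5
  refine ⟨⟨C ^ (1 / θ), ?_⟩, bkm_of_rate h.sol ht₀ hβ1 hLpos hfin⟩
  have hmem : Ico t₀ T ∈ 𝓝[<] T := Ico_mem_nhdsLT ht₀.2
  filter_upwards [hmem] with t ht x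
  refine (hfin t ht x).trans (le_of_eq ?_)
  rw [← Lf_eq, Real.rpow_neg (hLpos t ht).le]
  have h4 : 0 < T - t := sub_pos.2 ht.2
  have h5 : 0 < (Lf T t) ^ β := Real.rpow_pos_of_pos (hLpos t ht) _
  field_simp

/-- Times near `T` are positive. -/
theorem ev_pos (hT : 0 < T) : ∀ᶠ t in 𝓝[<] T, t ∈ Ioo 0 T := Ioo_mem_nhdsLT hT

/-- The criterion in terms of the strain. -/
theorem strain_crit (hT : 0 < T) (h : IsC2Solution T u p) {κ γ δ M : ℝ}
    (hκ : 9 < κ) (hγ : 1 < γ) (hδ : 0 ≤ δ)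
    (hyp : Hyp T δ γ M (11 / 2) κ u (fun t x =>
      strainSq (u t) x - 2 * pressDir (u t) (p t) x)) :
    (∃ C : ℝ, ∀ᶠ t in 𝓝[<] T, ∀ x, nrm (vort (u t) x)
      ≤ C / ((T - t) * Real.log (1 / (T - t)) ^ min γ (κ / 9))) ∧
    BKMFinite T u := by
  have h1 := main hT h (θ := 7 / 4) (κ := κ / 2) (γ := γ) (δ := δ) (M := M) (by norm_num)
    (by linarith) hγ hδ (by
      filter_upwards [hyp, ev_pos hT] with t ht htI x hx
      refine ⟨fun hle => ?_, (ht x hx).2⟩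
      have h2 := (ht x hx).1 hle
      have htr := h.sol.div_free t ⟨htI.1.le, htI.2⟩ x
      have h3 := crit_le (q := p t) htr hx
      change _ ≤ (_ - 2 * pressDir (u t) (p t) x) / 2 at h3
      have h4 : 0 ≤ (T - t) ^ 2 := sq_nonneg _
      have h5 := mul_le_mul_of_nonneg_left h3 h4
      have h6 : κ / 2 / Real.log (1 / (T - t)) = (κ / Real.log (1 / (T - t))) / 2 := by ring
      rw [h6]
      linarith)
  have e : κ / 2 / (2 * (7 / 4) + 1) = κ / 9 := by ring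
  rw [e] at h1
  exact h1

/-- The criterion in terms of the vorticity and a one-sided bound for the pressure Hessian. -/
theorem pressure_crit (hT : 0 < T) (h : IsC2Solution T u p) {ρ c γ δ M : ℝ}
    (hρ : ρ ^ 2 + 10 * c < 11) (hγ : 1 < γ) (hδ : 0 ≤ δ)
    (hyp : ∀ᶠ t in 𝓝[<] T, ∀ x, vort (u t) x ≠ 0 → level T δ γ t ≤ nrm (vort (u t) x) →
      (T - t) * nrm (vort (u t) x) ≤ ρ ∧
      (∀ e : V, -(c / (T - t) ^ 2) * (e ⬝ᵥ e) ≤ e ⬝ᵥ (hess (p t) x).mulVec e) ∧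
      (nrm (vort (u t) x) = level T δ γ t → (T - t) * stretch (u t) x ≤ M)) :
    BKMFinite T u := by
  set ε := (11 - (ρ ^ 2 + 10 * c)) / 2 with hε
  have hε0 : 0 < ε := by rw [hε]; linarith
  refine (strain_crit hT h (κ := 10) (γ := γ) (δ := δ) (M := M) (by norm_num) hγ hδ ?_).2
  have h1 : ∀ᶠ t in 𝓝[<] T, 10 / ε ≤ Lf T t := (tendsto_Lf T).eventually (eventually_ge_atTop _)
  have h2 : ∀ᶠ t in 𝓝[<] T, 0 < Lf T t := (tendsto_Lf T).eventually (eventually_gt_atTop _)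
  filter_upwards [hyp, ev_pos hT, h1, h2] with t ht htI hL hL0 x hx
  refine ⟨fun hle => ?_, fun heq => (ht x hx heq.ge).2.2 heq⟩
  obtain ⟨hr, hH, -⟩ := ht x hx hle
  have h4 : 0 < T - t := sub_pos.2 htI.2
  have h3 := strain_one_sided h htI hx hH
  change _ - 2 * pressDir (u t) (p t) x ≤ _ at h3
  have h5 := mul_le_mul_of_nonneg_left h3 (sq_nonneg (T - t))
  have h6 : 10 / Lf T t ≤ ε := by
    rw [div_le_iff₀ hL0]
    rw [div_le_iff₀ hε0] at hL
    linarith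
  have h7 : (T - t) ^ 2 * ((nrm (vort (u t) x) ^ 2 + 10 * (c / (T - t) ^ 2)) / 2)
      = (((T - t) * nrm (vort (u t) x)) ^ 2 + 10 * c) / 2 := by
    field_simp
  have h8 : ((T - t) * nrm (vort (u t) x)) ^ 2 ≤ ρ ^ 2 := by
    have : 0 ≤ (T - t) * nrm (vort (u t) x) := mul_nonneg h4.le (nrm_nonneg _)
    gcongr
  rw [← Lf_eq]
  rw [h7] at h5
  linarith

/-! ## Linear flows -/

theorem uf_dirv {t : ℝ} (ht : t ∈ Ico 0 T) (x : V) : dirv (uf T t) x = ![0, 0, 1] := by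
  have hy := yf_pos ht
  unfold dirv
  rw [uf_vort, nrm_e2, abs_of_pos hy]
  ext i
  fin_cases i <;> simp [hy.ne']

theorem uf_stretch {t : ℝ} (ht : t ∈ Ico 0 T) (x : V) : stretch (uf T t) x = af T t := by
  unfold stretch
  rw [uf_dirv ht, uf_grad]
  simp [Af, Matrix.mulVec, dotProduct, Fin.sum_univ_three]

theorem uf_turn {t : ℝ} (ht : t ∈ Ico 0 T) (x : V) : turn (uf T t) x = 0 := by
  unfold turn
  rw [uf_stretch ht, uf_dirv ht, uf_grad]
  ext i
  fin_cases i <;> simp [Af]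

theorem uf_press {t : ℝ} (ht : t ∈ Ico 0 T) (x : V) :
    dirv (uf T t) x ⬝ᵥ (hess (pf T t) x).mulVec (dirv (uf T t) x) = -(bf T t + af T t ^ 2) := by
  rw [uf_dirv ht, pf_hess]
  simp [Matrix.mulVec_diagonal, dotProduct, Fin.sum_univ_three, df]

theorem uf_crit_eq {t : ℝ} (ht : t ∈ Ico 0 T) (θ : ℝ) (x : V) :
    crit θ (uf T t) (pf T t) x = bf T t + θ * af T t ^ 2 := by
  unfold crit
  rw [uf_press ht, uf_stretch ht, uf_turn ht]
  simp
  ring

theorem uf_strain {t : ℝ} (x : V) : strainSq (uf T t) x = 3 / 2 * af T t ^ 2 := by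
  unfold strainSq
  rw [uf_grad]
  simp [Af, Fin.sum_univ_three]
  ring

/-- The linear flow satisfies the hypothesis of the general criterion for every `κ < 2θ + 1`. -/
theorem uf_crit (hT : 0 < T) {θ κ : ℝ} (hκ : κ < 2 * θ + 1) :
    ∀ᶠ t in 𝓝[<] T, ∀ x, (T - t) ^ 2 * crit θ (uf T t) (pf T t) x
      ≤ θ + 1 - κ / Real.log (1 / (T - t)) := by
  have h1 : Tendsto (fun t => Lf T t / lf T t) (𝓝[<] T) (𝓝 1) := by
    have e : Tendsto (fun t => 1 - (1 + Real.log T) / lf T t) (𝓝[<] T) (𝓝 (1 - 0)) :=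
      tendsto_const_nhds.sub ((tendsto_lf T).const_div_atTop _)
    rw [sub_zero] at e
    refine e.congr' ?_
    filter_upwards [(tendsto_lf T).eventually (eventually_gt_atTop 0)] with t ht
    have : Lf T t = lf T t - (1 + Real.log T) := by unfold lf; ring
    rw [this, sub_div, div_self ht.ne']
  have h2 : Tendsto (fun t => (2 * θ + 1) * (Lf T t / lf T t)
      - (θ + 1) * (Lf T t / lf T t) * (1 / lf T t))
      (𝓝[<] T) (𝓝 ((2 * θ + 1) * 1 - (θ + 1) * 1 * 0)) :=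
    (h1.const_mul (2 * θ + 1)).sub ((h1.const_mul (θ + 1)).mul
      ((tendsto_lf T).const_div_atTop 1))
  have h3 := h2.eventually (lt_mem_nhds (show κ < (2 * θ + 1) * 1 - (θ + 1) * 1 * 0 by linarith))
  filter_upwards [h3, (tendsto_Lf T).eventually (eventually_gt_atTop 0), Ico_mem_nhdsLT hT]
    with t ht hL htI x
  have hl := lf_ge htI
  have hs : 0 < T - t := sub_pos.2 htI.2
  rw [uf_crit_eq htI, ← Lf_eq]
  have e2 : (T - t) ^ 2 * (bf T t + θ * af T t ^ 2)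
      = θ + 1 - ((2 * θ + 1) / lf T t - (θ + 1) / (lf T t) ^ 2) := by
    unfold bf af
    field_simp
    ring
  rw [e2]
  have : κ / Lf T t ≤ (2 * θ + 1) / lf T t - (θ + 1) / lf T t ^ 2 := by
    rw [div_le_iff₀ hL]
    refine ht.le.trans (le_of_eq ?_)
    field_simp
  linarith

/-- `(T - t)` times the stretching rate of the linear flow is at most `1`. -/
theorem uf_rate {t : ℝ} (ht : t ∈ Ico 0 T) (x : V) : (T - t) * stretch (uf T t) x ≤ 1 := by
  rw [uf_stretch ht]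
  have hl := lf_ge ht
  have hs : 0 < T - t := sub_pos.2 ht.2
  have e : (T - t) * af T t = 1 - (lf T t)⁻¹ := by
    unfold af
    field_simp
  rw [e]
  have : 0 ≤ (lf T t)⁻¹ := by positivity
  linarith

theorem uf_hyp_crit (hT : 0 < T) {θ κ : ℝ} (hκ : κ < 2 * θ + 1) (δ γ : ℝ) :
    Hyp T δ γ 1 (θ + 1) κ (uf T) (fun t x => crit θ (uf T t) (pf T t) x) := by
  filter_upwards [uf_crit hT hκ, Ico_mem_nhdsLT hT] with t ht htI x _
  exact ⟨fun _ => ht x, fun _ => uf_rate htI x⟩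

theorem uf_hyp_strain (hT : 0 < T) {κ : ℝ} (hκ : κ < 9) (δ γ : ℝ) :
    Hyp T δ γ 1 (11 / 2) κ (uf T) (fun t x => strainSq (uf T t) x
      - 2 * pressDir (uf T t) (pf T t) x) := by
  filter_upwards [uf_crit hT (θ := 7 / 4) (κ := κ / 2) (by linarith), Ico_mem_nhdsLT hT]
    with t ht htI x _
  refine ⟨fun _ => ?_, fun _ => uf_rate htI x⟩
  have h1 := ht x
  rw [uf_crit_eq htI] at h1
  have h2 : pressDir (uf T t) (pf T t) x = -(bf T t + af T t ^ 2) := uf_press htI x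
  rw [h2, uf_strain]
  have h6 : κ / 2 / Real.log (1 / (T - t)) = (κ / Real.log (1 / (T - t))) / 2 := by ring
  rw [h6] at h1
  linarith

end Pool.Agent.L5helper39.EU
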